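import Mathlib

/-! # Entanglement witnesses: definitions -/

open scoped Kronecker ComplexConjugate ComplexOrder MatrixOrder
open Matrix

noncomputable section

namespace Pool.Agent.R957.Mir

set_option linter.unusedSectionVars false

variable {m n : Type} [Fintype m] [Fintype n] [DecidableEq m] [DecidableEq n]

/-- Density matrices. -/
def IsState {ι : Type} [Fintype ι] (ρ : Matrix ι ι ℂ) : Prop := ρ.PosSemidef ∧ ρ.trace = 1

/-- Product states `α ⊗ β` on `ℂ^m ⊗ ℂ^n`. -/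
def ProductStates (m n : Type) [Fintype m] [Fintype n] : Set (Matrix (m × n) (m × n) ℂ) :=
  {σ | ∃ (α : Matrix m m ℂ) (β : Matrix n n ℂ), IsState α ∧ IsState β ∧ σ = α ⊗ₖ β}

/-- Separable states: convex combinations of product states. -/
def Separable (m n : Type) [Fintype m] [Fintype n] : Set (Matrix (m × n) (m × n) ℂ) :=
  convexHull ℝ (ProductStates m n)

/-- Entanglement witnesses on `ℂ^m ⊗ ℂ^n`. -/
def IsEW (W : Matrix (m × n) (m × n) ℂ) : Prop :=
  W.IsHermitian ∧ (∀ σ ∈ Separable m n, 0 ≤ (W * σ).trace.re) ∧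
    ∃ ρ : Matrix (m × n) (m × n) ℂ, IsState ρ ∧ (W * ρ).trace.re < 0

/-- Optimal entanglement witnesses: there are no `ε > 0` and nonzero positive semidefinite `P`
such that `W - ε P` is again an entanglement witness. -/
def IsOptimalEW (W : Matrix (m × n) (m × n) ℂ) : Prop :=
  IsEW W ∧ ¬ ∃ (ε : ℝ) (P : Matrix (m × n) (m × n) ℂ),
    0 < ε ∧ P.PosSemidef ∧ P ≠ 0 ∧ IsEW (W - (ε : ℂ) • P)

/-- Mirrored pairs: `W + M = u I ⊗ I` with `u` real. -/
def IsMirrored (W M : Matrix (m × n) (m × n) ℂ) : Prop :=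
  ∃ u : ℝ, W + M = (u : ℂ) • (1 : Matrix (m × n) (m × n) ℂ)

/-- product vector -/
def pv (a : m → ℂ) (b : n → ℂ) : m × n → ℂ := fun p => a p.1 * b p.2

/-- expectation value -/
def ev {ι : Type} [Fintype ι] (W : Matrix ι ι ℂ) (z : ι → ℂ) : ℂ := star z ⬝ᵥ (W *ᵥ z)

theorem trace_mul_vecMulVec {ι : Type} [Fintype ι] (W : Matrix ι ι ℂ) (z : ι → ℂ) :
    (W * vecMulVec z (star z)).trace = ev W z := by
  rw [mul_vecMulVec, trace_vecMulVec, ev, dotProduct_comm]

theorem posSemidef_decomp {ι : Type} [Fintype ι] [DecidableEq ι] {A : Matrix ι ι ℂ}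
    (hA : A.PosSemidef) :
    ∃ v : ι → ι → ℂ, A = ∑ k, vecMulVec (v k) (star (v k)) := by
  obtain ⟨B, hB⟩ := CStarAlgebra.nonneg_iff_eq_star_mul_self.mp hA.nonneg
  refine ⟨fun k => star (B k), ?_⟩
  rw [hB]
  ext i j
  rw [Matrix.mul_apply, Matrix.sum_apply]
  refine Finset.sum_congr rfl fun k _ => ?_
  simp [vecMulVec_apply]

theorem isState_vec {ι : Type} [Fintype ι] {z : ι → ℂ}
    (hz : star z ⬝ᵥ z = 1) : IsState (vecMulVec z (star z)) :=
  ⟨posSemidef_vecMulVec_self_star z, by rw [trace_vecMulVec, dotProduct_comm, hz]⟩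

theorem kron_vec (a : m → ℂ) (b : n → ℂ) :
    (vecMulVec a (star a)) ⊗ₖ (vecMulVec b (star b)) = vecMulVec (pv a b) (star (pv a b)) := by
  ext ⟨i, j⟩ ⟨k, l⟩
  simp only [kroneckerMap_apply, vecMulVec_apply, pv, Pi.star_apply, star_mul']
  ring

/-- Block positivity from product vectors. -/
theorem sep_of_pv {W : Matrix (m × n) (m × n) ℂ}
    (h : ∀ (a : m → ℂ) (b : n → ℂ), 0 ≤ (ev W (pv a b)).re) :
    ∀ σ ∈ Separable m n, 0 ≤ (W * σ).trace.re := by
  have hconv : Convex ℝ {σ : Matrix (m × n) (m × n) ℂ | 0 ≤ (W * σ).trace.re} := by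
    intro x hx y hy s t hs ht _
    simp only [Set.mem_ofPred_eq] at hx hy ⊢
    rw [mul_add, trace_add, Matrix.mul_smul, Matrix.mul_smul, trace_smul, trace_smul,
      Complex.add_re, Complex.smul_re, Complex.smul_re]
    exact add_nonneg (mul_nonneg hs hx) (mul_nonneg ht hy)
  refine fun σ hσ => convexHull_min ?_ hconv hσ
  rintro _ ⟨α, β, hα, hβ, rfl⟩
  simp only [Set.mem_ofPred_eq]
  obtain ⟨v, hv⟩ := posSemidef_decomp hα.1
  obtain ⟨w, hw⟩ := posSemidef_decomp hβ.1
  have : α ⊗ₖ β = ∑ k, ∑ l, vecMulVec (pv (v k) (w l)) (star (pv (v k) (w l))) := by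
    ext ⟨i, j⟩ ⟨i', j'⟩
    simp only [← kron_vec]
    rw [kroneckerMap_apply, hv, hw]
    simp only [Matrix.sum_apply, kroneckerMap_apply, Finset.sum_mul_sum]
  rw [this, Finset.mul_sum, trace_sum, Complex.re_sum]
  refine Finset.sum_nonneg fun k _ => ?_
  rw [Finset.mul_sum, trace_sum, Complex.re_sum]
  refine Finset.sum_nonneg fun l _ => ?_
  rw [trace_mul_vecMulVec]
  exact h _ _

theorem smul_pv (s t : ℂ) (a : m → ℂ) (b : n → ℂ) : pv (s • a) (t • b) = (s * t) • pv a b := by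
  ext p; simp [pv]; ring

theorem ev_smul {ι : Type} [Fintype ι] (W : Matrix ι ι ℂ) (s : ℂ) (z : ι → ℂ) :
    ev W (s • z) = (star s * s) * ev W z := by
  unfold ev
  rw [mulVec_smul, star_smul, smul_dotProduct, dotProduct_smul, smul_eq_mul, smul_eq_mul]
  ring

/-- An entanglement witness is nonnegative on all product vectors. -/
theorem IsEW.pv_nonneg {W : Matrix (m × n) (m × n) ℂ} (hW : IsEW W) (a : m → ℂ) (b : n → ℂ) :
    0 ≤ (ev W (pv a b)).re := by
  classical
  have key : ∀ {ι : Type} [Fintype ι] (z : ι → ℂ), z ≠ 0 →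
      ∃ s : ℝ, 0 < s ∧ star ((s : ℂ) • z) ⬝ᵥ ((s : ℂ) • z) = 1 := by
    intro ι _ z hz
    have h0 : star z ⬝ᵥ z = ((∑ i, ‖z i‖ ^ 2 : ℝ) : ℂ) := by
      simp only [dotProduct, Pi.star_apply]
      push_cast
      refine Finset.sum_congr rfl fun i _ => ?_
      exact Complex.conj_mul' (z i)
    have hpos : 0 < ∑ i, ‖z i‖ ^ 2 := by
      obtain ⟨i, hi⟩ := Function.ne_iff.1 hz
      refine Finset.sum_pos' (fun i _ => by positivity) ⟨i, Finset.mem_univ _, ?_⟩
      have : 0 < ‖z i‖ := norm_pos_iff.2 hi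
      positivity
    refine ⟨(Real.sqrt (∑ i, ‖z i‖ ^ 2))⁻¹, by positivity, ?_⟩
    rw [star_smul, smul_dotProduct, dotProduct_smul, h0]
    simp only [smul_eq_mul, Complex.star_def, Complex.conj_ofReal]
    rw [← Complex.ofReal_mul, ← Complex.ofReal_mul, ← Complex.ofReal_one]
    congr 1
    have := Real.mul_self_sqrt hpos.le
    field_simp
    nlinarith
  by_cases ha : a = 0
  · have : pv a b = 0 := by ext p; simp [pv, ha]
    simp [this, ev]
  by_cases hb : b = 0
  · have : pv a b = 0 := by ext p; simp [pv, hb]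
    simp [this, ev]
  obtain ⟨s, hs, hs1⟩ := key a ha
  obtain ⟨t, ht, ht1⟩ := key b hb
  have h1 := hW.2.1 _ (subset_convexHull ℝ _ ⟨_, _, isState_vec hs1, isState_vec ht1, rfl⟩)
  rw [kron_vec, trace_mul_vecMulVec, smul_pv, ev_smul] at h1
  have h2 : star ((s : ℂ) * t) * (s * t) = ((s * t * (s * t) : ℝ) : ℂ) := by
    simp [Complex.conj_ofReal]
  rw [h2, Complex.re_ofReal_mul] at h1
  have h3 : 0 < s * t * (s * t) := by positivity
  exact nonneg_of_mul_nonneg_right h1 h3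

/-- If the zero product vectors span the whole space, then an EW is optimal. -/
theorem optimal_of_span {W : Matrix (m × n) (m × n) ℂ} (hW : IsEW W)
    (hspan : ∀ K : Submodule ℂ (m × n → ℂ),
      (∀ (a : m → ℂ) (b : n → ℂ), (ev W (pv a b)).re = 0 → pv a b ∈ K) → K = ⊤) :
    IsOptimalEW W := by
  refine ⟨hW, ?_⟩
  rintro ⟨ε, P, hε, hP, hP0, hEW⟩
  apply hP0
  have hK := hspan (LinearMap.ker P.mulVecLin) (fun a b hab => by
    rw [LinearMap.mem_ker, mulVecLin_apply]
    have h1 := hEW.pv_nonneg a b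
    have h2 : ev (W - (ε : ℂ) • P) (pv a b) = ev W (pv a b) - ε * ev P (pv a b) := by
      simp only [ev, sub_mulVec, smul_mulVec, dotProduct_sub, dotProduct_smul, smul_eq_mul]
    rw [h2, Complex.sub_re, hab, Complex.re_ofReal_mul, zero_sub] at h1
    have h3 := hP.re_dotProduct_nonneg (pv a b)
    have h4 : (ev P (pv a b)).re = 0 := by
      have h5 : 0 ≤ (ev P (pv a b)).re := h3
      nlinarith
    have h6 : ev P (pv a b) = 0 := by
      apply Complex.ext h4
      have := (Complex.nonneg_iff.1 (hP.dotProduct_mulVec_nonneg (pv a b))).2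
      exact this.symm
    exact (hP.dotProduct_mulVec_zero_iff _).1 h6)
  have h7 : P.mulVecLin = 0 := LinearMap.ker_eq_top.1 hK
  have h8 : ∀ z, P *ᵥ z = 0 := fun z => by
    rw [← mulVecLin_apply, h7]; rfl
  ext i j
  have := congrFun (h8 (Pi.single j 1)) i
  simpa using this

end Pool.Agent.R957.Mir
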