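import Pool.Agent.R957.Mir.Inst

/-! # Mirrored pairs of optimal entanglement witnesses -/

open scoped Kronecker ComplexConjugate ComplexOrder MatrixOrder
open Matrix

noncomputable section

namespace Pool.Agent.R957.Mir

theorem BB_neg {ι : Type} [Fintype ι] [DecidableEq ι] (H : Matrix ι ι ℂ) :
    BB ((-1 : ℂ) • H) = -BB H := by
  ext ⟨i, j⟩ ⟨k, l⟩
  simp only [BB, Matrix.of_apply, Matrix.neg_apply, Matrix.smul_apply]
  split_ifs <;> simp

theorem mirrored_pair {ι : Type} [Fintype ι] [DecidableEq ι] {H : Matrix ι ι ℂ}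
    (h1 : Good ((1 : ℂ) • H)) (h2 : Good ((-1 : ℂ) • H)) :
    IsOptimalEW ((1 / 2 : ℂ) • 1 - BB H) ∧ IsOptimalEW ((1 / 2 : ℂ) • 1 + BB H) ∧
      IsMirrored ((1 / 2 : ℂ) • 1 - BB H) ((1 / 2 : ℂ) • 1 + BB H) := by
  refine ⟨?_, ?_, ⟨1, ?_⟩⟩
  · have := h1.isOptimalEW
    rwa [one_smul, WW] at this
  · have := h2.isOptimalEW
    rwa [WW, BB_neg, sub_neg_eq_add] at this
  · rw [Complex.ofReal_one, one_smul]
    have : ((1 / 2 : ℂ) • (1 : Matrix (ι × ι) (ι × ι) ℂ)) + (1 / 2 : ℂ) • 1 = 1 := by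
      rw [← add_smul]; norm_num
    calc _ = ((1 / 2 : ℂ) • (1 : Matrix (ι × ι) (ι × ι) ℂ)) + (1 / 2 : ℂ) • 1 := by abel
      _ = 1 := this

/-- If `½ + B` is unitarily equivalent to `½ - B`, then `tr B⁵ = 0`. -/
theorem not_unitary_equiv {κ : Type} [Fintype κ] [DecidableEq κ] {B : Matrix κ κ ℂ}
    (hB : (B * B * (B * B) * B).trace ≠ 0) (U : Matrix κ κ ℂ) (hU : U ∈ unitaryGroup κ ℂ) :
    (1 / 2 : ℂ) • 1 + B ≠ U * ((1 / 2 : ℂ) • 1 - B) * Uᴴ := by
  intro h
  apply hB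
  have hUU : U * Uᴴ = 1 := by
    have := (mem_unitaryGroup_iff (A := U)).1 hU
    rwa [star_eq_conjTranspose] at this
  have hUU' : Uᴴ * U = 1 := by
    have := (mem_unitaryGroup_iff' (A := U)).1 hU
    rwa [star_eq_conjTranspose] at this
  have h1 : B = -(U * B * Uᴴ) := by
    rw [Matrix.mul_sub, Matrix.sub_mul, Matrix.mul_smul, Matrix.smul_mul, Matrix.mul_one, hUU] at h
    have := add_left_cancel (a := (1 / 2 : ℂ) • (1 : Matrix κ κ ℂ)) (b := B)
      (c := -(U * B * Uᴴ)) (by rw [h]; abel)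
    exact this
  have h2 : B * B = U * (B * B) * Uᴴ := by
    conv_lhs => rw [h1]
    rw [Matrix.neg_mul, Matrix.mul_neg, neg_neg]
    calc U * B * Uᴴ * (U * B * Uᴴ) = U * B * (Uᴴ * U) * B * Uᴴ := by simp only [Matrix.mul_assoc]
      _ = U * (B * B) * Uᴴ := by rw [hUU']; simp only [Matrix.mul_assoc, Matrix.one_mul]
  have h4 : B * B * (B * B) = U * (B * B * (B * B)) * Uᴴ := by
    conv_lhs => rw [h2]
    calc U * (B * B) * Uᴴ * (U * (B * B) * Uᴴ) = U * (B * B) * (Uᴴ * U) * (B * B) * Uᴴ := by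
          simp only [Matrix.mul_assoc]
      _ = U * (B * B * (B * B)) * Uᴴ := by
          rw [hUU']; simp only [Matrix.mul_assoc, Matrix.one_mul]
  have h5 : B * B * (B * B) * B = -(U * (B * B * (B * B) * B) * Uᴴ) := by
    conv_lhs => rw [h4]
    nth_rewrite 5 [h1]
    rw [Matrix.mul_neg]
    congr 1
    calc U * (B * B * (B * B)) * Uᴴ * (U * B * Uᴴ)
        = U * (B * B * (B * B)) * (Uᴴ * U) * B * Uᴴ := by simp only [Matrix.mul_assoc]
      _ = U * (B * B * (B * B) * B) * Uᴴ := by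
          rw [hUU']; simp only [Matrix.mul_assoc, Matrix.one_mul]
  have h6 : (B * B * (B * B) * B).trace = -(B * B * (B * B) * B).trace := by
    conv_lhs => rw [h5]
    rw [trace_neg, trace_mul_comm, ← Matrix.mul_assoc, hUU', Matrix.one_mul]
  have h7 : (2 : ℂ) * (B * B * (B * B) * B).trace = 0 := by linear_combination h6
  simpa using h7

theorem trace_BB_H5 : (BB H5 * BB H5 * (BB H5 * BB H5) * BB H5).trace ≠ 0 := by
  rw [BB_mul, BB_mul, BB_mul, trace_BB, trace_H5]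
  norm_num

end Pool.Agent.R957.Mir
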