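import Pool.Agent.R957.Mir.Defs

/-! # The witnesses `½ - ∑ H_ij |ii⟩⟨jj|` -/

open scoped Kronecker ComplexConjugate ComplexOrder MatrixOrder
open Matrix

noncomputable section

namespace Pool.Agent.R957.Mir

set_option linter.unusedSectionVars false

variable {ι : Type} [Fintype ι] [DecidableEq ι]

/-- `B = ∑_{i,j} H_ij |ii⟩⟨jj|`. -/
def BB (H : Matrix ι ι ℂ) : Matrix (ι × ι) (ι × ι) ℂ :=
  Matrix.of fun p q => if p.1 = p.2 ∧ q.1 = q.2 then H p.1 q.1 else 0

/-- `W = ½ - B`. -/
def WW (H : Matrix ι ι ℂ) : Matrix (ι × ι) (ι × ι) ℂ := (1 / 2 : ℂ) • 1 - BB H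

theorem ev_BB (H : Matrix ι ι ℂ) (a b : ι → ℂ) :
    ev (BB H) (pv a b) = ev H (fun i => a i * b i) := by
  simp only [ev, dotProduct, mulVec, BB, pv, Pi.star_apply, Fintype.sum_prod_type, Matrix.of_apply]
  refine Finset.sum_congr rfl fun i _ => ?_
  rw [Finset.sum_eq_single i]
  · congr 1
    refine Finset.sum_congr rfl fun j _ => ?_
    rw [Finset.sum_eq_single j]
    · simp
    · intro k _ hk
      simp [hk.symm]
    · intro h; exact absurd (Finset.mem_univ _) h
  · intro k _ hk
    simp [hk.symm]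
  · intro h; exact absurd (Finset.mem_univ _) h

theorem star_pv_dot (a b : ι → ℂ) :
    star (pv a b) ⬝ᵥ pv a b = (star a ⬝ᵥ a) * (star b ⬝ᵥ b) := by
  simp only [dotProduct, pv, Pi.star_apply, Fintype.sum_prod_type, star_mul',
    Finset.sum_mul_sum]
  refine Finset.sum_congr rfl fun i _ => Finset.sum_congr rfl fun j _ => ?_
  ring

theorem ev_WW (H : Matrix ι ι ℂ) (a b : ι → ℂ) :
    ev (WW H) (pv a b) = 1 / 2 * ((star a ⬝ᵥ a) * (star b ⬝ᵥ b))
      - ev H (fun i => a i * b i) := by
  rw [← ev_BB, ← star_pv_dot]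
  simp only [WW, ev, sub_mulVec, smul_mulVec, one_mulVec, dotProduct_sub, dotProduct_smul,
    smul_eq_mul]

theorem star_dot_self (a : ι → ℂ) : star a ⬝ᵥ a = ((∑ i, ‖a i‖ ^ 2 : ℝ) : ℂ) := by
  simp only [dotProduct, Pi.star_apply]
  push_cast
  exact Finset.sum_congr rfl fun i _ => Complex.conj_mul' (a i)

/-- Conditions on `H`. -/
structure Good (H : Matrix ι ι ℂ) : Prop where
  herm : ∀ i j, conj (H i j) = H j i
  diag : ∀ i, H i i = 0
  unit : ∀ i j, H i j ≠ 0 → ‖H i j‖ = 1
  bd : ∀ r : ι → ℝ, (∀ i, 0 ≤ r i) → ∑ i, ∑ j, ‖H i j‖ * r i * r j ≤ 1 / 2 * (∑ i, r i) ^ 2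
  cov : ∀ i k, i ≠ k → H i k ≠ 0 ∨ ∃ j, H i j ≠ 0 ∧ H j k ≠ 0
  ne : ∃ i j, H i j ≠ 0
  span : ∀ K : Submodule ℂ (ι → ℂ), (∀ i j, H i j ≠ 0 →
    Pi.single i 1 + conj (H i j) • Pi.single j 1 ∈ K) → ∀ i, Pi.single i 1 ∈ K

variable {H : Matrix ι ι ℂ}

theorem Good.block (hH : Good H) (a b : ι → ℂ) : 0 ≤ (ev (WW H) (pv a b)).re := by
  rw [ev_WW, star_dot_self, star_dot_self]
  have h1 : (ev H (fun i => a i * b i)).re ≤ ∑ i, ∑ j, ‖H i j‖ * ‖a i * b i‖ * ‖a j * b j‖ := by
    refine (Complex.re_le_norm _).trans ?_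
    simp only [ev, dotProduct, mulVec, Pi.star_apply, Finset.mul_sum]
    refine (norm_sum_le _ _).trans (Finset.sum_le_sum fun i _ => ?_)
    refine (norm_sum_le _ _).trans (Finset.sum_le_sum fun j _ => ?_)
    rw [norm_mul, norm_mul, norm_star]
    apply le_of_eq; ring
  have h2 := hH.bd (fun i => ‖a i * b i‖) fun i => norm_nonneg _
  have h3 : (∑ i, ‖a i * b i‖) ^ 2 ≤ (∑ i, ‖a i‖ ^ 2) * ∑ i, ‖b i‖ ^ 2 := by
    have := Finset.sum_mul_sq_le_sq_mul_sq Finset.univ (fun i => ‖a i‖) (fun i => ‖b i‖)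
    simpa [norm_mul] using this
  have h4 : (1 / 2 * (((∑ i, ‖a i‖ ^ 2 : ℝ) : ℂ) * ((∑ i, ‖b i‖ ^ 2 : ℝ) : ℂ))).re
      = 1 / 2 * ((∑ i, ‖a i‖ ^ 2) * ∑ i, ‖b i‖ ^ 2) := by
    rw [← Complex.ofReal_mul]
    have : (1 / 2 : ℂ) = ((1 / 2 : ℝ) : ℂ) := by push_cast; rfl
    rw [this, ← Complex.ofReal_mul, Complex.ofReal_re]
  rw [Complex.sub_re, h4]
  linarith

theorem Good.isHermitian_BB (hH : Good H) : (BB H).IsHermitian := by
  ext ⟨i, j⟩ ⟨k, l⟩
  simp only [BB, conjTranspose_apply, Matrix.of_apply]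
  by_cases h1 : i = j <;> by_cases h2 : k = l
  · subst h1; subst h2
    simpa using hH.herm k i
  · simp [h1, h2]
  · simp [h1, h2]
  · simp [h1, h2]

theorem Good.isHermitian_WW (hH : Good H) : (WW H).IsHermitian := by
  unfold WW
  refine IsHermitian.sub ?_ hH.isHermitian_BB
  unfold IsHermitian
  rw [conjTranspose_smul, conjTranspose_one]
  congr 1
  simp

/-- `ev` on vectors with two nonzero coordinates. -/
theorem ev_two (H : Matrix ι ι ℂ) (i j : ι) (α β : ℂ) :
    ev H (Pi.single i α + Pi.single j β) = conj α * H i i * α + conj α * H i j * β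
      + conj β * H j i * α + conj β * H j j * β := by
  simp only [ev, mulVec_add, star_add, add_dotProduct, dotProduct_add]
  have : ∀ (k l : ι) (x y : ℂ), star (Pi.single k x : ι → ℂ) ⬝ᵥ H *ᵥ (Pi.single l y)
      = conj x * H k l * y := by
    intro k l x y
    have h1 : star (Pi.single k x : ι → ℂ) = Pi.single k (conj x) := by
      ext m
      by_cases hm : m = k
      · subst hm; simp
      · simp [hm]
    rw [h1, single_dotProduct, mulVec_single]
    simp; ring
  simp only [this]
  ring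

theorem ev_three (H : Matrix ι ι ℂ) (i j k : ι) (α β γ : ℂ) :
    ev H (Pi.single i α + Pi.single j β + Pi.single k γ) = conj α * H i i * α + conj α * H i j * β
      + conj α * H i k * γ + conj β * H j i * α + conj β * H j j * β + conj β * H j k * γ
      + conj γ * H k i * α + conj γ * H k j * β + conj γ * H k k * γ := by
  simp only [ev, mulVec_add, star_add, add_dotProduct, dotProduct_add]
  have : ∀ (k l : ι) (x y : ℂ), star (Pi.single k x : ι → ℂ) ⬝ᵥ H *ᵥ (Pi.single l y)
      = conj x * H k l * y := by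
    intro k l x y
    have h1 : star (Pi.single k x : ι → ℂ) = Pi.single k (conj x) := by
      ext m
      by_cases hm : m = k
      · subst hm; simp
      · simp [hm]
    rw [h1, single_dotProduct, mulVec_single]
    simp; ring
  simp only [this]
  ring

theorem dot_eq_ev (a : ι → ℂ) : star a ⬝ᵥ a = ev (1 : Matrix ι ι ℂ) a := by
  simp [ev]

theorem Good.isEW (hH : Good H) : IsEW (WW H) := by
  refine ⟨hH.isHermitian_WW, sep_of_pv hH.block, ?_⟩
  obtain ⟨i, j, hij⟩ := hH.ne
  have hne : i ≠ j := by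
    rintro rfl; exact hij (hH.diag i)
  have hu := hH.unit i j hij
  have hmul : H i j * conj (H i j) = 1 := by
    rw [Complex.mul_conj']; simp [hu]
  -- the vector `|ii⟩ + h |jj⟩`
  set ψ : ι × ι → ℂ := Pi.single (i, i) 1 + Pi.single (j, j) (conj (H i j)) with hψ
  have hne2 : ((i, i) : ι × ι) ≠ (j, j) := by simp [hne]
  have hn : star ψ ⬝ᵥ ψ = 2 := by
    rw [dot_eq_ev, hψ, ev_two]
    simp [one_apply, hne2, hne2.symm, hmul]
    norm_num
  have hB : ev (BB H) ψ = 2 := by
    rw [hψ, ev_two]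
    simp [BB, hH.diag, ← hH.herm i j, hmul]
    norm_num
  refine ⟨(1 / 2 : ℂ) • vecMulVec ψ (star ψ), ⟨?_, ?_⟩, ?_⟩
  · refine (posSemidef_vecMulVec_self_star ψ).smul ?_
    exact (by norm_num [Complex.le_def] : (0 : ℂ) ≤ 1 / 2)
  · rw [trace_smul, trace_vecMulVec, dotProduct_comm, hn]; simp
  · rw [Matrix.mul_smul, trace_smul, trace_mul_vecMulVec]
    have : ev (WW H) ψ = 1 / 2 * (star ψ ⬝ᵥ ψ) - ev (BB H) ψ := by
      simp only [WW, ev, sub_mulVec, smul_mulVec, one_mulVec, dotProduct_sub, dotProduct_smul,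
        smul_eq_mul]
    rw [this, hn, hB]
    norm_num

/-- Zero product vectors on an edge. -/
theorem Good.zero_edge (hH : Good H) {i j : ι} (hij : H i j ≠ 0) {s : ℂ} (hs : ‖s‖ = 1) :
    (ev (WW H) (pv (Pi.single i 1 + Pi.single j s)
      (Pi.single i 1 + Pi.single j (conj s * conj (H i j))))).re = 0 := by
  have hne : i ≠ j := by
    rintro rfl; exact hij (hH.diag i)
  have hu := hH.unit i j hij
  have hmul : H i j * conj (H i j) = 1 := by
    rw [Complex.mul_conj']; simp [hu]
  have hss : s * conj s = 1 := by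
    rw [Complex.mul_conj']; simp [hs]
  have hz : (fun k => (Pi.single i 1 + Pi.single j s : ι → ℂ) k *
      (Pi.single i 1 + Pi.single j (conj s * conj (H i j)) : ι → ℂ) k)
      = Pi.single i 1 + Pi.single j (conj (H i j)) := by
    ext k
    by_cases h1 : k = i
    · subst h1; simp [hne]
    · by_cases h2 : k = j
      · subst h2
        simp [h1]
        rw [← mul_assoc, hss, one_mul]
      · simp [h1, h2]
  rw [ev_WW, hz, ev_two, dot_eq_ev, dot_eq_ev, ev_two, ev_two]
  simp only [one_apply_eq, one_apply_ne hne, one_apply_ne hne.symm, hH.diag, map_one, map_mul,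
    Complex.conj_conj, ← hH.herm i j]
  have e1 : (1 : ℂ) * 1 * 1 + 1 * 0 * s + conj s * 0 * 1 + conj s * 1 * s = 2 := by
    rw [mul_one (conj s), mul_comm (conj s) s, hss]; norm_num
  have e2 : (1 : ℂ) * 1 * 1 + 1 * 0 * (conj s * conj (H i j)) + s * H i j * 0 * 1
      + s * H i j * 1 * (conj s * conj (H i j)) = 2 := by
    have : s * H i j * 1 * (conj s * conj (H i j)) = (s * conj s) * (H i j * conj (H i j)) := by
      ring
    rw [this, hss, hmul]; norm_num
  have e3 : (1 : ℂ) * 0 * 1 + 1 * H i j * conj (H i j) + H i j * conj (H i j) * 1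
      + H i j * 0 * conj (H i j) = 2 := by
    rw [one_mul (H i j), hmul]; norm_num
  rw [e1, e2, e3]
  norm_num

/-- Zero product vectors on a path `i - j - k`. -/
theorem Good.zero_path (hH : Good H) {i j k : ι} (hik : i ≠ k) (hik0 : H i k = 0)
    (hij : H i j ≠ 0) (hjk : H j k ≠ 0) {s : ℂ} (hs : ‖s‖ = 1) :
    (ev (WW H) (pv (Pi.single i (3 * s) + Pi.single j 5 + Pi.single k 4)
      (Pi.single i (3 * conj s * H i j) + Pi.single j 5 + Pi.single k (4 * H k j)))).re = 0 := by
  have hne : i ≠ j := by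
    rintro rfl; exact hij (hH.diag i)
  have hne' : j ≠ k := by
    rintro rfl; exact hjk (hH.diag j)
  have hu := hH.unit i j hij
  have hkj : H k j ≠ 0 := by
    rw [← hH.herm j k]; simpa using hjk
  have hu' := hH.unit k j hkj
  have hmul : H i j * conj (H i j) = 1 := by
    rw [Complex.mul_conj']; simp [hu]
  have hmul' : H k j * conj (H k j) = 1 := by
    rw [Complex.mul_conj']; simp [hu']
  have hss : s * conj s = 1 := by
    rw [Complex.mul_conj']; simp [hs]
  have hz : (fun l => (Pi.single i (3 * s) + Pi.single j 5 + Pi.single k 4 : ι → ℂ) l *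
      (Pi.single i (3 * conj s * H i j) + Pi.single j 5 + Pi.single k (4 * H k j) : ι → ℂ) l)
      = Pi.single i (9 * H i j) + Pi.single j 25 + Pi.single k (16 * H k j) := by
    ext l
    by_cases h1 : l = i
    · subst h1
      simp [hne, hik]
      have : 3 * s * (3 * conj s * H l j) = 9 * ((s * conj s) * H l j) := by ring
      rw [this, hss]; ring
    · by_cases h2 : l = j
      · subst h2
        simp [h1, hne']
        norm_num
      · by_cases h3 : l = k
        · subst h3
          simp [h1, h2]; ring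
        · simp [h1, h2, h3]
  have hki0 : H k i = 0 := by rw [← hH.herm i k, hik0]; simp
  rw [ev_WW, hz, ev_three, dot_eq_ev, dot_eq_ev, ev_three, ev_three]
  simp only [one_apply_eq, one_apply_ne hne, one_apply_ne hne.symm, one_apply_ne hne',
    one_apply_ne hne'.symm, one_apply_ne hik, one_apply_ne hik.symm, hH.diag, map_one, map_mul,
    Complex.conj_conj, hik0, hki0, map_ofNat, mul_zero, zero_mul, add_zero, zero_add]
  rw [← hH.herm i j, ← hH.herm k j]
  have e1 : (3 : ℂ) * conj s * 1 * (3 * s) + 5 * 1 * 5 + 4 * 1 * 4 = 50 := by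
    have : (3 : ℂ) * conj s * 1 * (3 * s) = 9 * (s * conj s) := by ring
    rw [this, hss]; norm_num
  have e2 : (3 : ℂ) * s * conj (H i j) * 1 * (3 * conj s * H i j) + 5 * 1 * 5
      + 4 * conj (H k j) * 1 * (4 * H k j) = 50 := by
    have : (3 : ℂ) * s * conj (H i j) * 1 * (3 * conj s * H i j)
        = 9 * (s * conj s) * (H i j * conj (H i j)) := by ring
    rw [this, hss, hmul]
    have : (4 : ℂ) * conj (H k j) * 1 * (4 * H k j) = 16 * (H k j * conj (H k j)) := by ring
    rw [this, hmul']; norm_num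
  have e3 : (9 : ℂ) * conj (H i j) * H i j * 25 + 25 * conj (H i j) * (9 * H i j)
      + 25 * conj (H k j) * (16 * H k j) + 16 * conj (H k j) * H k j * 25 = 1250 := by
    have : (9 : ℂ) * conj (H i j) * H i j * 25 + 25 * conj (H i j) * (9 * H i j)
      + 25 * conj (H k j) * (16 * H k j) + 16 * conj (H k j) * H k j * 25
      = 450 * (H i j * conj (H i j)) + 800 * (H k j * conj (H k j)) := by ring
    rw [this, hmul, hmul']; norm_num
  rw [e1, e2, e3]
  norm_num

/-- matrix units -/
abbrev E (i j : ι) : ι × ι → ℂ := Pi.single (i, j) 1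

theorem pv_two (i j : ι) (α β γ δ : ℂ) :
    pv (Pi.single i α + Pi.single j β : ι → ℂ) (Pi.single i γ + Pi.single j δ : ι → ℂ)
      = (α * γ) • E i i + (α * δ) • E i j + (β * γ) • E j i + (β * δ) • E j j := by
  have h : ∀ (k l : ι) (x y : ℂ), (fun p : ι × ι => (Pi.single k x : ι → ℂ) p.1 *
      (Pi.single l y : ι → ℂ) p.2) = (x * y) • E k l := by
    intro k l x y
    ext ⟨p, q⟩
    by_cases h1 : p = k
    · by_cases h2 : q = l
      · subst h1; subst h2; simp
      · simp [h2]
    · simp [h1]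
  rw [← h, ← h, ← h, ← h]
  ext p
  simp only [pv, Pi.add_apply]
  ring

theorem pv_three (i j k : ι) (α β γ α' β' γ' : ℂ) :
    pv (Pi.single i α + Pi.single j β + Pi.single k γ : ι → ℂ)
      (Pi.single i α' + Pi.single j β' + Pi.single k γ' : ι → ℂ)
      = (α * α') • E i i + (α * β') • E i j + (α * γ') • E i k
        + (β * α') • E j i + (β * β') • E j j + (β * γ') • E j k
        + (γ * α') • E k i + (γ * β') • E k j + (γ * γ') • E k k := by
  have h : ∀ (k l : ι) (x y : ℂ), (fun p : ι × ι => (Pi.single k x : ι → ℂ) p.1 *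
      (Pi.single l y : ι → ℂ) p.2) = (x * y) • E k l := by
    intro k l x y
    ext ⟨p, q⟩
    by_cases h1 : p = k
    · by_cases h2 : q = l
      · subst h1; subst h2; simp
      · simp [h2]
    · simp [h1]
  rw [← h, ← h, ← h, ← h, ← h, ← h, ← h, ← h, ← h]
  ext p
  simp only [pv, Pi.add_apply]
  ring

theorem Good.edge_mem (hH : Good H) {K : Submodule ℂ (ι × ι → ℂ)}
    (hK : ∀ (a b : ι → ℂ), (ev (WW H) (pv a b)).re = 0 → pv a b ∈ K)
    {i j : ι} (hij : H i j ≠ 0) :
    E i i + conj (H i j) • E j j ∈ K ∧ E i j ∈ K ∧ E j i ∈ K := by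
  set h := conj (H i j) with hh
  have hh0 : h ≠ 0 := by rw [hh]; simpa using hij
  have key : ∀ s : ℂ, ‖s‖ = 1 → E i i + (conj s * h) • E i j + s • E j i + h • E j j ∈ K := by
    intro s hs
    have h1 := hK _ _ (hH.zero_edge hij hs)
    rw [pv_two] at h1
    have hss : s * (conj s * conj (H i j)) = h := by
      rw [← mul_assoc, Complex.mul_conj']; simp [hs, hh]
    rw [hss] at h1
    simpa using h1
  have h1 := key 1 (by simp)
  have h2 := key (-1) (by simp)
  have h3 := key Complex.I (by simp)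
  simp only [map_one, map_neg, Complex.conj_I] at h1 h2 h3
  have hD : E i i + h • E j j ∈ K := by
    have := K.smul_mem (1 / 2 : ℂ) (K.add_mem h1 h2)
    convert this using 1
    module
  have hS : h • E i j + E j i ∈ K := by
    have := K.smul_mem (1 / 2 : ℂ) (K.sub_mem h1 h2)
    convert this using 1
    module
  have hT : E j i - h • E i j ∈ K := by
    have := K.smul_mem (-Complex.I) (K.sub_mem h3 hD)
    convert this using 1
    have hI : Complex.I * Complex.I = -1 := Complex.I_mul_I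
    ext p
    simp only [Pi.sub_apply, Pi.smul_apply, Pi.add_apply, smul_eq_mul]
    linear_combination ((E j i) p - h * (E i j) p) * hI
  refine ⟨hD, ?_, ?_⟩
  · have := K.smul_mem ((2 * h)⁻¹ : ℂ) (K.sub_mem hS hT)
    convert this using 1
    ext p
    simp only [Pi.sub_apply, Pi.smul_apply, Pi.add_apply, smul_eq_mul]
    field_simp
    ring
  · have := K.smul_mem (1 / 2 : ℂ) (K.add_mem hS hT)
    convert this using 1
    module

theorem Good.path_mem (hH : Good H) {K : Submodule ℂ (ι × ι → ℂ)}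
    (hK : ∀ (a b : ι → ℂ), (ev (WW H) (pv a b)).re = 0 → pv a b ∈ K)
    {i j k : ι} (hik : i ≠ k) (hik0 : H i k = 0) (hij : H i j ≠ 0) (hjk : H j k ≠ 0) :
    E i k ∈ K := by
  have hkj : H k j ≠ 0 := by
    rw [← hH.herm j k]; simpa using hjk
  obtain ⟨-, h1, h2⟩ := hH.edge_mem hK hij
  obtain ⟨-, h3, h4⟩ := hH.edge_mem hK hkj
  have key : ∀ s : ℂ, ‖s‖ = 1 → (9 * H i j) • E i i + (16 * H k j) • E k k
      + (25 : ℂ) • E j j + (12 * H k j * s) • E i k + (12 * H i j * conj s) • E k i ∈ K := by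
    intro s hs
    have h5 := hK _ _ (hH.zero_path hik hik0 hij hjk hs)
    rw [pv_three] at h5
    have h6 := K.sub_mem (K.sub_mem (K.sub_mem (K.sub_mem h5 (K.smul_mem (15 * s) h1))
      (K.smul_mem (5 * (3 * conj s * H i j)) h2)) (K.smul_mem (20 : ℂ) h3))
      (K.smul_mem (5 * (4 * H k j)) h4)
    have hss : s * conj s = 1 := by
      rw [Complex.mul_conj']; simp [hs]
    convert h6 using 1
    ext p
    simp only [Pi.sub_apply, Pi.smul_apply, Pi.add_apply, smul_eq_mul]
    linear_combination (-9 * H i j * (E i i) p) * hss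
  have k1 := key 1 (by simp)
  have k2 := key (-1) (by simp)
  have k3 := key Complex.I (by simp)
  have k4 := key (-Complex.I) (by simp)
  simp only [map_one, map_neg, Complex.conj_I] at k1 k2 k3 k4
  have hA := K.sub_mem k1 k2
  have hB := K.smul_mem Complex.I (K.sub_mem k3 k4)
  have hC := K.smul_mem ((48 * H k j)⁻¹) (K.sub_mem hA hB)
  convert hC using 1
  have hI : Complex.I * Complex.I = -1 := Complex.I_mul_I
  ext p
  simp only [Pi.sub_apply, Pi.smul_apply, Pi.add_apply, smul_eq_mul]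
  field_simp
  ring_nf
  rw [Complex.I_sq]
  ring

/-- Main general statement. -/
theorem Good.isOptimalEW (hH : Good H) : IsOptimalEW (WW H) := by
  refine optimal_of_span hH.isEW fun K hK => ?_
  have hoff : ∀ i k, i ≠ k → E i k ∈ K := by
    intro i k hik
    by_cases h0 : H i k = 0
    · rcases hH.cov i k hik with h1 | ⟨j, h1, h2⟩
      · exact absurd h0 h1
      · exact hH.path_mem hK hik h0 h1 h2
    · exact (hH.edge_mem hK h0).2.1
  have hdiag : ∀ i, E i i ∈ K := by
    let T : (ι → ℂ) →ₗ[ℂ] (ι × ι → ℂ) :=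
      { toFun := fun x p => if p.1 = p.2 then x p.1 else 0
        map_add' := fun x y => by ext p; by_cases h : p.1 = p.2 <;> simp [h]
        map_smul' := fun c x => by ext p; by_cases h : p.1 = p.2 <;> simp [h] }
    have hT : ∀ i, T (Pi.single i 1) = E i i := by
      intro i
      ext ⟨p, q⟩
      by_cases h : p = q
      · subst h
        by_cases h2 : p = i
        · subst h2; simp [T]
        · simp [T, h2]
      · have : ¬ (p = i ∧ q = i) := by
          rintro ⟨rfl, rfl⟩; exact h rfl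
        simp [T, h, this]
    intro i
    have := hH.span (K.comap T) (fun i j hij => by
      rw [Submodule.mem_comap, map_add, map_smul, hT, hT]
      exact (hH.edge_mem hK hij).1) i
    rw [Submodule.mem_comap, hT] at this
    exact this
  rw [Submodule.eq_top_iff']
  intro x
  have hx : x = ∑ p, x p • E p.1 p.2 := by
    ext q
    simp [Finset.sum_apply, Pi.single_apply]
  rw [hx]
  refine K.sum_mem fun p _ => K.smul_mem _ ?_
  by_cases h : p.1 = p.2
  · rw [← h]; exact hdiag _
  · exact hoff _ _ h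

end Pool.Agent.R957.Mir
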