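import Pool.Agent.R957.Mir.Gen

/-! # Instances: bipartite graphs with a negative edge, and the five-cycle with a flux -/

open scoped Kronecker ComplexConjugate ComplexOrder MatrixOrder
open Matrix

noncomputable section

namespace Pool.Agent.R957.Mir

/-- indicator of `{0, 1}` -/
def xx {d : ℕ} (i : Fin d) : ℝ := if i.val < 2 then 1 else 0

/-- `±1` between `{0, 1}` and `{2, ..., d-1}` (with `-1` only at the pair `1, 3`), `0` otherwise. -/
def Hd (d : ℕ) : Matrix (Fin d) (Fin d) ℂ := Matrix.of fun i j =>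
  if (i.val < 2 ∧ 2 ≤ j.val) ∨ (j.val < 2 ∧ 2 ≤ i.val) then
    (if (i.val = 1 ∧ j.val = 3) ∨ (i.val = 3 ∧ j.val = 1) then -1 else 1) else 0

theorem Hd_symm {d : ℕ} (i j : Fin d) : Hd d i j = Hd d j i := by
  simp only [Hd, Matrix.of_apply]
  congr 1
  · rw [or_comm]
  · congr 1
    rw [or_comm, and_comm, and_comm (a := i.val = 1)]

theorem Hd_norm {d : ℕ} (i j : Fin d) :
    ‖Hd d i j‖ = xx i * (1 - xx j) + (1 - xx i) * xx j := by
  simp only [Hd, Matrix.of_apply, xx]
  by_cases hi : i.val < 2 <;> by_cases hj : j.val < 2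
  · simp [hi, hj, not_le.2 hi, not_le.2 hj]
  · simp only [hi, hj, not_lt.1 hj, and_self, true_or, if_true, if_false]
    split_ifs <;> simp
  · simp only [hi, hj, not_lt.1 hi, and_self, or_true, if_true, if_false]
    split_ifs <;> simp
  · simp [hi, hj]

theorem Hd_real {d : ℕ} (i j : Fin d) : conj (Hd d i j) = Hd d i j := by
  simp only [Hd, Matrix.of_apply]
  split_ifs <;> simp

theorem Hd_ne {d : ℕ} (i j : Fin d) :
    Hd d i j ≠ 0 ↔ (i.val < 2 ∧ 2 ≤ j.val) ∨ (j.val < 2 ∧ 2 ≤ i.val) := by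
  simp only [Hd, Matrix.of_apply]
  by_cases h : (i.val < 2 ∧ 2 ≤ j.val) ∨ (j.val < 2 ∧ 2 ≤ i.val)
  · rw [if_pos h]
    exact iff_of_true (by split_ifs <;> simp) h
  · rw [if_neg h]
    exact iff_of_false (by simp) h

theorem good_Hd {d : ℕ} (hd : 4 ≤ d) {t : ℂ} (ht : t = 1 ∨ t = -1) : Good (t • Hd d) := by
  have ht0 : t ≠ 0 := by rcases ht with rfl | rfl <;> simp
  have htn : ‖t‖ = 1 := by rcases ht with rfl | rfl <;> simp
  have htc : conj t = t := by rcases ht with rfl | rfl <;> simp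
  have htt : t * t = 1 := by rcases ht with rfl | rfl <;> simp
  have hne : ∀ i j : Fin d, (t • Hd d) i j ≠ 0 ↔
      (i.val < 2 ∧ 2 ≤ j.val) ∨ (j.val < 2 ∧ 2 ≤ i.val) := by
    intro i j
    rw [← Hd_ne, Matrix.smul_apply, smul_eq_mul, mul_ne_zero_iff]
    exact ⟨fun h => h.2, fun h => ⟨ht0, h⟩⟩
  refine ⟨?_, ?_, ?_, ?_, ?_, ?_, ?_⟩
  · intro i j
    rw [Matrix.smul_apply, Matrix.smul_apply, smul_eq_mul, smul_eq_mul, map_mul, htc, Hd_real,
      Hd_symm]
  · intro i
    by_contra h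
    rcases (hne i i).1 h with h | h <;> omega
  · intro i j h
    rw [Matrix.smul_apply, smul_eq_mul, norm_mul, htn, one_mul, Hd_norm]
    rcases (hne i j).1 h with ⟨h1, h2⟩ | ⟨h1, h2⟩
    · simp [xx, h1, not_lt.2 h2]
    · simp [xx, h1, not_lt.2 h2]
  · intro r hr
    have h1 : ∑ i, ∑ j, ‖(t • Hd d) i j‖ * r i * r j
        = 2 * ((∑ i, xx i * r i) * ∑ i, (1 - xx i) * r i) := by
      have h2 : ∀ i j, ‖(t • Hd d) i j‖ * r i * r j
          = (xx i * r i) * ((1 - xx j) * r j) + ((1 - xx i) * r i) * (xx j * r j) := by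
        intro i j
        rw [Matrix.smul_apply, smul_eq_mul, norm_mul, htn, one_mul, Hd_norm]; ring
      simp only [h2, Finset.sum_add_distrib]
      rw [← Finset.sum_mul_sum, ← Finset.sum_mul_sum]
      ring
    have h3 : ∑ i, r i = (∑ i, xx i * r i) + ∑ i, (1 - xx i) * r i := by
      rw [← Finset.sum_add_distrib]
      exact Finset.sum_congr rfl fun i _ => by ring
    rw [h1, h3]
    nlinarith [sq_nonneg ((∑ i, xx i * r i) - ∑ i, (1 - xx i) * r i)]
  · intro i k hik
    by_cases hi : i.val < 2 <;> by_cases hk : k.val < 2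
    · right
      refine ⟨⟨2, by omega⟩, (hne _ _).2 (Or.inl ⟨hi, by simp⟩), (hne _ _).2 (Or.inr ⟨hk, by simp⟩)⟩
    · left; exact (hne _ _).2 (Or.inl ⟨hi, not_lt.1 hk⟩)
    · left; exact (hne _ _).2 (Or.inr ⟨hk, not_lt.1 hi⟩)
    · right
      refine ⟨⟨0, by omega⟩, (hne _ _).2 (Or.inr ⟨by simp, not_lt.1 hi⟩),
        (hne _ _).2 (Or.inl ⟨by simp, not_lt.1 hk⟩)⟩
  · exact ⟨⟨0, by omega⟩, ⟨2, by omega⟩, (hne _ _).2 (Or.inl ⟨by simp, by simp⟩)⟩
  · intro K hK
    have hK' : ∀ i j : Fin d, ((i.val < 2 ∧ 2 ≤ j.val) ∨ (j.val < 2 ∧ 2 ≤ i.val)) →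
        (Pi.single i 1 + (t * Hd d i j) • Pi.single j 1 : Fin d → ℂ) ∈ K := by
      intro i j h
      have := hK i j ((hne i j).2 h)
      rwa [Matrix.smul_apply, smul_eq_mul, map_mul, htc, Hd_real] at this
    set a0 : Fin d := ⟨0, by omega⟩ with ha0
    set a1 : Fin d := ⟨1, by omega⟩ with ha1
    set a2 : Fin d := ⟨2, by omega⟩ with ha2
    set a3 : Fin d := ⟨3, by omega⟩ with ha3
    have k02 := hK' a0 a2 (by simp [ha0, ha2])
    have k12 := hK' a1 a2 (by simp [ha1, ha2])
    have k03 := hK' a0 a3 (by simp [ha0, ha3])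
    have k13 := hK' a1 a3 (by simp [ha1, ha3])
    have v02 : Hd d a0 a2 = 1 := by simp [Hd, ha0, ha2]
    have v12 : Hd d a1 a2 = 1 := by simp [Hd, ha1, ha2]
    have v03 : Hd d a0 a3 = 1 := by simp [Hd, ha0, ha3]
    have v13 : Hd d a1 a3 = -1 := by simp [Hd, ha1, ha3]
    rw [v02] at k02
    rw [v12] at k12
    rw [v03] at k03
    rw [v13] at k13
    have e0 : (Pi.single a0 1 : Fin d → ℂ) ∈ K := by
      have := K.smul_mem (1 / 2 : ℂ) (K.add_mem (K.sub_mem k02 k12) (K.add_mem k03 k13))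
      convert this using 1
      module
    have e1 : (Pi.single a1 1 : Fin d → ℂ) ∈ K := by
      have := K.sub_mem e0 (K.sub_mem k02 k12)
      convert this using 1
      module
    intro i
    by_cases hi : i.val < 2
    · have : i = a0 ∨ i = a1 := by
        rcases Nat.lt_succ_iff_lt_or_eq.1 hi with h | h
        · left; ext; simp [ha0]; omega
        · right; ext; simp [ha1, h]
      rcases this with rfl | rfl
      · exact e0
      · exact e1
    · have h1 := hK' a0 i (Or.inl ⟨by simp [ha0], not_lt.1 hi⟩)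
      have v : Hd d a0 i = 1 := by simp [Hd, ha0, not_lt.1 hi]
      rw [v, mul_one] at h1
      have := K.smul_mem t (K.sub_mem h1 e0)
      convert this using 1
      rw [add_sub_cancel_left, smul_smul, htt, one_smul]

/-- the flux -/
def w : ℂ := ⟨3 / 5, 4 / 5⟩

theorem w_conj : conj w = ⟨3 / 5, -(4 / 5)⟩ := by
  apply Complex.ext <;> simp [w]

theorem w_mul : w * conj w = 1 := by
  apply Complex.ext <;> simp [w] <;> norm_num

theorem norm_w : ‖w‖ = 1 := by
  have h : ‖w‖ ^ 2 = 1 := by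
    have := Complex.mul_conj' w
    rw [w_mul] at this
    exact_mod_cast this.symm
  have h0 := norm_nonneg w
  nlinarith

theorem w_ne : w ≠ 0 := by
  intro h
  have := norm_w
  rw [h] at this
  simp at this

/-- the five-cycle with flux `w` -/
def H5 : Matrix (Fin 5) (Fin 5) ℂ :=
  !![0, w, 0, 0, 1;
     conj w, 0, 1, 0, 0;
     0, 1, 0, 1, 0;
     0, 0, 1, 0, 1;
     1, 0, 0, 1, 0]

theorem horn (a b c d e : ℝ) (ha : 0 ≤ a) (hb : 0 ≤ b) (hc : 0 ≤ c) (hd : 0 ≤ d) (he : 0 ≤ e) :
    4 * (a * b + b * c + c * d + d * e + e * a) ≤ (a + b + c + d + e) ^ 2 := by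
  rcases le_total d e with h | h
  · nlinarith [sq_nonneg (a - b + c + d - e), mul_nonneg hb hd, mul_nonneg hc (sub_nonneg.2 h)]
  · nlinarith [sq_nonneg (a - b + c - d + e), mul_nonneg hb he, mul_nonneg ha (sub_nonneg.2 h)]

theorem good_H5 {t : ℂ} (ht : t = 1 ∨ t = -1) : Good (t • H5) := by
  have ht0 : t ≠ 0 := by rcases ht with rfl | rfl <;> simp
  have htn : ‖t‖ = 1 := by rcases ht with rfl | rfl <;> simp
  have htc : conj t = t := by rcases ht with rfl | rfl <;> simp
  have htt : t * t = 1 := by rcases ht with rfl | rfl <;> simp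
  refine ⟨?_, ?_, ?_, ?_, ?_, ?_, ?_⟩
  · intro i j
    rw [Matrix.smul_apply, Matrix.smul_apply, smul_eq_mul, smul_eq_mul, map_mul, htc]
    congr 1
    fin_cases i <;> fin_cases j <;> simp [H5]
  · intro i
    rw [Matrix.smul_apply]
    fin_cases i <;> simp [H5]
  · intro i j h
    rw [Matrix.smul_apply, smul_eq_mul] at h ⊢
    rw [norm_mul, htn, one_mul]
    fin_cases i <;> fin_cases j <;> simp [H5, norm_w] at h ⊢
  · intro r hr
    have h1 : ∑ i, ∑ j, ‖(t • H5) i j‖ * r i * r j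
        = 2 * (r 0 * r 1 + r 1 * r 2 + r 2 * r 3 + r 3 * r 4 + r 4 * r 0) := by
      simp only [Matrix.smul_apply, smul_eq_mul, norm_mul, htn, one_mul, Fin.sum_univ_five]
      simp [H5, norm_w]
      ring
    rw [h1, Fin.sum_univ_five]
    have := horn (r 0) (r 1) (r 2) (r 3) (r 4) (hr 0) (hr 1) (hr 2) (hr 3) (hr 4)
    linarith
  · have hw := w_ne
    intro i k hik
    have hE : ∀ i j : Fin 5, H5 i j ≠ 0 → (t • H5) i j ≠ 0 := by
      intro i j h
      rw [Matrix.smul_apply, smul_eq_mul]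
      exact mul_ne_zero ht0 h
    have n01 : H5 0 1 ≠ 0 := by simp [H5, hw]
    have n10 : H5 1 0 ≠ 0 := by simp [H5, hw]
    have n12 : H5 1 2 ≠ 0 := by simp [H5]
    have n21 : H5 2 1 ≠ 0 := by simp [H5]
    have n23 : H5 2 3 ≠ 0 := by simp [H5]
    have n32 : H5 3 2 ≠ 0 := by simp [H5]
    have n34 : H5 3 4 ≠ 0 := by simp [H5]
    have n43 : H5 4 3 ≠ 0 := by simp [H5]
    have n40 : H5 4 0 ≠ 0 := by simp [H5]
    have n04 : H5 0 4 ≠ 0 := by simp [H5]
    fin_cases i <;> fin_cases k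
    · exact absurd rfl hik
    · exact Or.inl (hE _ _ n01)
    · exact Or.inr ⟨1, hE _ _ n01, hE _ _ n12⟩
    · exact Or.inr ⟨4, hE _ _ n04, hE _ _ n43⟩
    · exact Or.inl (hE _ _ n04)
    · exact Or.inl (hE _ _ n10)
    · exact absurd rfl hik
    · exact Or.inl (hE _ _ n12)
    · exact Or.inr ⟨2, hE _ _ n12, hE _ _ n23⟩
    · exact Or.inr ⟨0, hE _ _ n10, hE _ _ n04⟩
    · exact Or.inr ⟨1, hE _ _ n21, hE _ _ n10⟩
    · exact Or.inl (hE _ _ n21)
    · exact absurd rfl hik
    · exact Or.inl (hE _ _ n23)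
    · exact Or.inr ⟨3, hE _ _ n23, hE _ _ n34⟩
    · exact Or.inr ⟨4, hE _ _ n34, hE _ _ n40⟩
    · exact Or.inr ⟨2, hE _ _ n32, hE _ _ n21⟩
    · exact Or.inl (hE _ _ n32)
    · exact absurd rfl hik
    · exact Or.inl (hE _ _ n34)
    · exact Or.inl (hE _ _ n40)
    · exact Or.inr ⟨0, hE _ _ n40, hE _ _ n01⟩
    · exact Or.inr ⟨3, hE _ _ n43, hE _ _ n32⟩
    · exact Or.inl (hE _ _ n43)
    · exact absurd rfl hik
  · refine ⟨1, 2, ?_⟩
    rw [Matrix.smul_apply, smul_eq_mul]
    simp [H5, ht0]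
  · intro K hK
    have hw := w_ne
    have k01 := hK 0 1 (by rw [Matrix.smul_apply, smul_eq_mul]; simp [H5, ht0, hw])
    have k12 := hK 1 2 (by rw [Matrix.smul_apply, smul_eq_mul]; simp [H5, ht0])
    have k23 := hK 2 3 (by rw [Matrix.smul_apply, smul_eq_mul]; simp [H5, ht0])
    have k34 := hK 3 4 (by rw [Matrix.smul_apply, smul_eq_mul]; simp [H5, ht0])
    have k40 := hK 4 0 (by rw [Matrix.smul_apply, smul_eq_mul]; simp [H5, ht0])
    rw [Matrix.smul_apply, smul_eq_mul, map_mul, htc] at k01 k12 k23 k34 k40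
    have v01 : H5 0 1 = w := by simp [H5]
    have v12 : H5 1 2 = 1 := by simp [H5]
    have v23 : H5 2 3 = 1 := by simp [H5]
    have v34 : H5 3 4 = 1 := by simp [H5]
    have v40 : H5 4 0 = 1 := by simp [H5]
    rw [v01] at k01
    rw [v12, map_one, mul_one] at k12
    rw [v23, map_one, mul_one] at k23
    rw [v34, map_one, mul_one] at k34
    rw [v40, map_one, mul_one] at k40
    have e0 : (Pi.single 0 1 : Fin 5 → ℂ) ∈ K := by
      have h1 : (1 + t * conj w) ≠ 0 := by
        rw [w_conj]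
        intro h
        have := congrArg Complex.im h
        rcases ht with rfl | rfl <;> simp at this
      have h2 : (1 + t * conj w) • (Pi.single 0 1 : Fin 5 → ℂ) ∈ K := by
        have f3 : (Pi.single 3 1 - Pi.single 0 1 : Fin 5 → ℂ) ∈ K := by
          have := K.sub_mem k34 (K.smul_mem t k40)
          convert this using 1
          rw [smul_add, smul_smul, htt, one_smul]
          abel
        have f2 : (Pi.single 2 1 + t • Pi.single 0 1 : Fin 5 → ℂ) ∈ K := by
          have := K.sub_mem k23 (K.smul_mem t f3)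
          convert this using 1
          rw [smul_sub]
          abel
        have f1 : (Pi.single 1 1 - Pi.single 0 1 : Fin 5 → ℂ) ∈ K := by
          have := K.sub_mem k12 (K.smul_mem t f2)
          convert this using 1
          rw [smul_add, smul_smul, htt, one_smul]
          abel
        have := K.sub_mem k01 (K.smul_mem (t * conj w) f1)
        convert this using 1
        rw [smul_sub, add_smul, one_smul]
        abel
      have := K.smul_mem (1 + t * conj w)⁻¹ h2
      rwa [smul_smul, inv_mul_cancel₀ h1, one_smul] at this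
    have e4 : (Pi.single 4 1 : Fin 5 → ℂ) ∈ K := by
      have := K.sub_mem k40 (K.smul_mem t e0)
      simpa using this
    have e3 : (Pi.single 3 1 : Fin 5 → ℂ) ∈ K := by
      have := K.sub_mem k34 (K.smul_mem t e4)
      simpa using this
    have e2 : (Pi.single 2 1 : Fin 5 → ℂ) ∈ K := by
      have := K.sub_mem k23 (K.smul_mem t e3)
      simpa using this
    have e1 : (Pi.single 1 1 : Fin 5 → ℂ) ∈ K := by
      have := K.sub_mem k12 (K.smul_mem t e2)
      simpa using this
    intro i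
    fin_cases i
    · exact e0
    · exact e1
    · exact e2
    · exact e3
    · exact e4

theorem BB_mul {ι : Type} [Fintype ι] [DecidableEq ι] (H H' : Matrix ι ι ℂ) :
    BB H * BB H' = BB (H * H') := by
  ext ⟨i, j⟩ ⟨k, l⟩
  simp only [BB, Matrix.mul_apply, Matrix.of_apply, Fintype.sum_prod_type]
  by_cases h1 : i = j
  · by_cases h2 : k = l
    · subst h1; subst h2
      simp only [true_and, and_true, if_true]
      refine Finset.sum_congr rfl fun x _ => ?_
      rw [Finset.sum_eq_single x]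
      · simp
      · intro y _ hy
        simp [hy.symm]
      · intro h; exact absurd (Finset.mem_univ _) h
    · simp [h2]
  · simp [h1]

theorem trace_BB {ι : Type} [Fintype ι] [DecidableEq ι] (H : Matrix ι ι ℂ) :
    (BB H).trace = H.trace := by
  simp only [Matrix.trace, Matrix.diag, BB, Matrix.of_apply, Fintype.sum_prod_type]
  refine Finset.sum_congr rfl fun x _ => ?_
  rw [Finset.sum_eq_single x]
  · simp
  · intro y _ hy
    simp [hy.symm]
  · intro h; exact absurd (Finset.mem_univ _) h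

theorem trace_H5 : (H5 * H5 * (H5 * H5) * H5).trace = 6 := by
  have h2 : H5 * H5 = !![2, 0, w, 1, 0;
     0, 2, 0, 1, conj w;
     conj w, 0, 2, 0, 1;
     1, 1, 0, 2, 0;
     0, w, 1, 0, 2] := by
    have hw := w_mul
    have hw' : conj w * w = 1 := by rw [mul_comm]; exact w_mul
    ext i j
    fin_cases i <;> fin_cases j <;>
      simp [H5, Matrix.mul_apply, Fin.sum_univ_five, hw, hw'] <;> norm_num
  have hs : w + conj w = 6 / 5 := by
    rw [w_conj]; apply Complex.ext <;> simp [w] <;> norm_num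
  have hm := w_mul
  rw [h2]
  simp only [Matrix.trace, Matrix.diag, Matrix.mul_apply, Fin.sum_univ_five]
  simp [H5]
  linear_combination 5 * hs

end Pool.Agent.R957.Mir
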